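import Pool.Agent.Helper19.SQ.GoalsH

/-!
# Project SQ (MP_bb32d1_al), packet LAYS: the layers of the tensor product with the dual
-/

set_option autoImplicit false

namespace Pool.Agent.Helper24.SQ

open Pool.Agent.Helper19.SQ

theorem qz_succ {l : ℕ} [NeZero l] {q : ℂ} (hq : q ^ l = 1) (c : ZMod l) :
    qz q (c + 1) = q * qz q c := by
  unfold qz
  rw [ZMod.val_add, ← pow_eq_pow_mod _ hq, ZMod.val_one_eq_one_mod, pow_add,
    ← pow_eq_pow_mod _ hq, pow_one, mul_comm]

theorem qz_pred {l : ℕ} [NeZero l] {q : ℂ} (hq : q ^ l = 1) (hq0 : q ≠ 0) (c : ZMod l) :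
    qz q (c - 1) = q⁻¹ * qz q c := by
  have h := qz_succ hq (c - 1)
  rw [sub_add_cancel] at h
  rw [h, ← mul_assoc, inv_mul_cancel₀ hq0, one_mul]

/-- **LAYS** -/
theorem s_lays : S_LAYS := by
  intro N l _ q D hP M _ _ _ _ lam m hm j
  have hq : q ^ l = 1 := hP.prim.pow_eq_one
  have hq0 : q ≠ 0 := hP.prim.ne_zero (NeZero.ne l)
  constructor
  · intro k
    have hval : ∀ i : Fin (N + 1), (gE N l q k • tv D.ep j m) i =
        if (i : ℕ) = k + 1 ∧ (j : ℕ) = k then (-q) • m else 0 := by
      intro i
      rw [Ten.smul_apply, D.ep_E]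
      rw [Finset.sum_eq_single j]
      · simp only [tv, if_true, eE, Matrix.of_apply, add_smul]
        have h1 : (if i = j then q ^ (-pr (i : ℕ) k) • gE N l q k else 0) • m = 0 := by
          split_ifs
          · rw [smul_assoc, hm.1 k, smul_zero]
          · rw [zero_smul]
        rw [h1, zero_add]
        split_ifs
        · rw [smul_assoc, one_smul]
        · rw [zero_smul]
      · intro b _ hb
        simp [tv, hb]
      · intro h
        exact absurd (Finset.mem_univ j) h
    by_cases h : (j : ℕ) = k ∧ k + 1 < N + 1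
    · have heq : gE N l q k • tv D.ep j m = (-q) • tv D.ep ⟨k + 1, h.2⟩ m := by
        funext i
        rw [hval i]
        change _ = (-q) • (if i = ⟨k + 1, h.2⟩ then m else 0)
        by_cases hi : i = ⟨k + 1, h.2⟩
        · rw [if_pos hi, if_pos ⟨by rw [hi], h.1⟩]
        · rw [if_neg hi, if_neg, smul_zero]
          rintro ⟨h1, -⟩
          exact hi (Fin.ext h1)
      rw [heq]
      refine Submodule.smul_of_tower_mem _ _ (Submodule.subset_span ⟨⟨k + 1, h.2⟩, ?_, rfl⟩)
      rw [Fin.lt_def]
      simp only
      omega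
    · have heq : gE N l q k • tv D.ep j m = 0 := by
        funext i
        rw [hval i, if_neg]
        · rfl
        · rintro ⟨h1, h2⟩
          exact h ⟨h2, h1 ▸ i.isLt⟩
      rw [heq]
      exact Submodule.zero_mem _
  · intro i
    funext a
    rw [Ten.smul_apply, D.ep_K]
    rw [Finset.sum_eq_single j]
    · change _ = qz q (subE lam j i) • tv D.ep j m a
      simp only [tv, if_true, eK, Matrix.of_apply]
      by_cases ha : a = j
      · subst ha
        rw [if_pos rfl, if_pos rfl]
        rw [smul_assoc, hm.2 i, smul_smul]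
        congr 1
        unfold subE
        by_cases hi : i = a
        · subst hi
          rw [if_pos rfl, if_pos rfl, qz_pred hq hq0]
        · rw [if_neg hi, if_neg, one_mul, sub_zero]
          intro h
          exact hi (Fin.ext h.symm)
      · rw [if_neg ha, if_neg ha, zero_smul, smul_zero]
    · intro b _ hb
      simp [tv, hb]
    · intro h
      exact absurd (Finset.mem_univ j) h

end Pool.Agent.Helper24.SQ
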