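import Pool.Agent.Helper19.SQ.GoalsH

/-!
Project SQ (MP_bb32d1_al), packet SQ-RM: right multiplication of a monomial by `E_k`.
-/

set_option autoImplicit false

namespace Pool.Agent.Helper24.SQ

noncomputable section

open Pool.Agent.Helper19.SQ

variable {B : Type} [Ring B] [Algebra ℂ B]

/-- product of the first `M` columns. -/
def cpr (q : ℂ) (E : ℕ → B) (M : ℕ) (b : ℕ → ℕ → ℕ) : B :=
  ((List.range M).map fun j => colM q E b (j + 1)).prod

theorem cpr_succ (q : ℂ) (E : ℕ → B) (M : ℕ) (b : ℕ → ℕ → ℕ) :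
    cpr q E (M + 1) b = cpr q E M b * colM q E b (M + 1) := by
  unfold cpr
  rw [List.range_succ, List.map_append, List.prod_append, List.map_singleton, List.prod_singleton]

theorem colM_congr (q : ℂ) (E : ℕ → B) {b b' : ℕ → ℕ → ℕ} {j : ℕ}
    (h : ∀ i < j, b i j = b' i j) : colM q E b j = colM q E b' j := by
  unfold colM
  congr 1
  apply List.map_congr_left
  intro i hi
  rw [h i (List.mem_range.1 hi)]

theorem cpr_congr (q : ℂ) (E : ℕ → B) {b b' : ℕ → ℕ → ℕ} {M : ℕ}
    (h : ∀ i j, j ≤ M → b i j = b' i j) : cpr q E M b = cpr q E M b' := by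
  unfold cpr
  congr 1
  apply List.map_congr_left
  intro j hj
  have hj' := List.mem_range.1 hj
  exact colM_congr q E fun i _ => h i (j + 1) hj'

theorem qn_succ' (q : ℂ) (hq : q ≠ 0) (hq1 : q ^ 2 ≠ 1) (c : ℕ) :
    qn q (c + 1) = q * qn q c + q⁻¹ ^ c := by
  unfold qn
  have h : q - q⁻¹ ≠ 0 := by
    intro h
    apply hq1
    have := congrArg (fun x => x * q) h
    simp only [sub_mul, zero_mul, inv_mul_cancel₀ hq] at this
    rw [pow_two]
    linear_combination this
  have h1 : q⁻¹ ^ (c + 1) = q⁻¹ ^ c * q⁻¹ := pow_succ _ _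
  have h2 : q ^ (c + 1) = q * q ^ c := pow_succ' _ _
  rw [div_eq_iff h, h1, h2]
  rw [add_mul, mul_assoc, div_mul_cancel₀ _ h]
  ring

theorem pow_mul_gen (q : ℂ) (hq : q ≠ 0) (hq1 : q ^ 2 ≠ 1) {X Y e : B}
    (hX : X * e = q • (e * X) - q • Y) (hYX : Y * X = q • (X * Y)) (c : ℕ) :
    X ^ c * e = q ^ c • (e * X ^ c) + (-q * qn q c) • (Y * X ^ (c - 1)) := by
  have hXY : X * Y = q⁻¹ • (Y * X) := by rw [hYX, smul_smul, inv_mul_cancel₀ hq, one_smul]
  have hXcY : ∀ c : ℕ, X ^ c * Y = q⁻¹ ^ c • (Y * X ^ c) := by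
    intro c
    induction c with
    | zero => simp
    | succ c ih =>
      rw [pow_succ', mul_assoc, ih, mul_smul_comm, ← mul_assoc, hXY, smul_mul_assoc, smul_smul,
        pow_succ, mul_assoc]
  induction c with
  | zero =>
    have h0 : qn q 0 = 0 := by simp [qn]
    simp [h0]
  | succ c ih =>
    have hY : qn q c • (Y * X ^ (c - 1) * X) = qn q c • (Y * X ^ c) := by
      rcases c with _ | c
      · simp [qn]
      · rw [Nat.add_sub_cancel, mul_assoc, ← pow_succ]
    calc X ^ (c + 1) * e = X ^ c * (X * e) := by rw [pow_succ, mul_assoc]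
      _ = q • ((X ^ c * e) * X) - q • (X ^ c * Y) := by
          rw [hX, mul_sub, mul_smul_comm, mul_smul_comm, ← mul_assoc]
      _ = q • ((q ^ c • (e * X ^ c) + (-q * qn q c) • (Y * X ^ (c - 1))) * X)
            - q • (q⁻¹ ^ c • (Y * X ^ c)) := by rw [ih, hXcY]
      _ = q ^ (c + 1) • (e * X ^ (c + 1)) + (q * -q) • (qn q c • (Y * X ^ (c - 1) * X))
            - (q * q⁻¹ ^ c) • (Y * X ^ c) := by
          rw [add_mul, smul_mul_assoc, smul_mul_assoc, smul_add, smul_smul, smul_smul, smul_smul,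
            mul_assoc e, ← pow_succ, ← pow_succ', smul_smul, mul_assoc q (-q) (qn q c)]
      _ = q ^ (c + 1) • (e * X ^ (c + 1)) + (-q * qn q (c + 1)) • (Y * X ^ (c + 1 - 1)) := by
          rw [hY, Nat.add_sub_cancel, smul_smul, add_sub_assoc, ← sub_smul]
          congr 2
          rw [qn_succ' q hq hq1]
          ring

theorem pow_mul_gen2 (q : ℂ) (hq : q ≠ 0) {Y e : B} (hY : e * Y = q • (Y * e)) (a : ℕ) :
    Y ^ a * e = q⁻¹ ^ a • (e * Y ^ a) := by
  have h : Y * e = q⁻¹ • (e * Y) := by rw [hY, smul_smul, inv_mul_cancel₀ hq, one_smul]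
  induction a with
  | zero => simp
  | succ a ih =>
    rw [pow_succ, mul_assoc, h, mul_smul_comm, ← mul_assoc, ih, smul_mul_assoc, smul_smul,
      mul_assoc, pow_succ']

theorem list_prod_comm {e : B} (L : List B) (h : ∀ x ∈ L, x * e = e * x) :
    L.prod * e = e * L.prod := by
  induction L with
  | nil => simp
  | cons a L ih =>
    rw [List.prod_cons, mul_assoc, ih fun x hx => h x (List.mem_cons_of_mem _ hx), ← mul_assoc,
      h a List.mem_cons_self, mul_assoc]

theorem pow_comm_of {x e : B} (h : e * x = x * e) (n : ℕ) : x ^ n * e = e * x ^ n :=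
  (Commute.pow_left (show Commute x e from h.symm) n)

/-- splitting of a column. -/
theorem colM_split (q : ℂ) (E : ℕ → B) (b : ℕ → ℕ → ℕ) (k r : ℕ) :
    colM q E b (k + 2 + r) =
      ((List.range k).map fun i => rv q E i (k + 2 + r) ^ b i (k + 2 + r)).prod *
        (rv q E k (k + 2 + r) ^ b k (k + 2 + r) *
          rv q E (k + 1) (k + 2 + r) ^ b (k + 1) (k + 2 + r)) *
        ((List.range r).map fun d => rv q E (k + 2 + d) (k + 2 + r) ^
          b (k + 2 + d) (k + 2 + r)).prod := by
  unfold colM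
  rw [List.range_add, List.map_append, List.prod_append, List.map_map, List.range_succ,
    List.map_append, List.prod_append, List.range_succ, List.map_append, List.prod_append]
  simp only [List.map_singleton, List.prod_singleton, mul_assoc]
  rfl

theorem colM_mul (q : ℂ) (hq : q ≠ 0) (hq1 : q ^ 2 ≠ 1) (E : ℕ → B) (R : RootRel q E)
    (b : ℕ → ℕ → ℕ) (k j : ℕ) (hkj : k + 1 < j) :
    colM q E b j * E k = q ^ ((b (k + 1) j : ℤ) - (b k j : ℤ)) • (E k * colM q E b j)
      + (-q * qn q (b (k + 1) j)) • colM q E (mvc b k j) j := by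
  obtain ⟨r, rfl⟩ : ∃ r, j = k + 2 + r := ⟨j - (k + 2), by omega⟩
  have hmk : mvc b k (k + 2 + r) k (k + 2 + r) = b k (k + 2 + r) + 1 := by
    simp [mvc, inc, upd]
  have hmk1 : mvc b k (k + 2 + r) (k + 1) (k + 2 + r) = b (k + 1) (k + 2 + r) - 1 := by
    simp [mvc, inc, upd]
  have hmo : ∀ i, i ≠ k → i ≠ k + 1 →
      mvc b k (k + 2 + r) i (k + 2 + r) = b i (k + 2 + r) := by
    intro i h1 h2
    simp [mvc, inc, upd, h1, h2]
  rw [colM_split, colM_split, hmk, hmk1]
  have hP1 : ((List.range k).map fun i => rv q E i (k + 2 + r) ^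
      mvc b k (k + 2 + r) i (k + 2 + r)) =
      ((List.range k).map fun i => rv q E i (k + 2 + r) ^ b i (k + 2 + r)) := by
    apply List.map_congr_left
    intro i hi
    have := List.mem_range.1 hi
    rw [hmo i (by omega) (by omega)]
  have hP2 : ((List.range r).map fun d => rv q E (k + 2 + d) (k + 2 + r) ^
      mvc b k (k + 2 + r) (k + 2 + d) (k + 2 + r)) =
      ((List.range r).map fun d => rv q E (k + 2 + d) (k + 2 + r) ^
        b (k + 2 + d) (k + 2 + r)) := by
    apply List.map_congr_left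
    intro d _
    rw [hmo _ (by omega) (by omega)]
  rw [hP1, hP2]
  set P1 := ((List.range k).map fun i => rv q E i (k + 2 + r) ^ b i (k + 2 + r)).prod with hP1d
  set P2 := ((List.range r).map fun d => rv q E (k + 2 + d) (k + 2 + r) ^
        b (k + 2 + d) (k + 2 + r)).prod with hP2d
  set X := rv q E (k + 1) (k + 2 + r) with hXd
  set Y := rv q E k (k + 2 + r) with hYd
  have c1 : P1 * E k = E k * P1 := by
    apply list_prod_comm
    intro x hx
    obtain ⟨i, hi, rfl⟩ := List.mem_map.1 hx
    have := List.mem_range.1 hi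
    exact pow_comm_of (R.R6 i k (k + 2 + r) this (by omega)) _
  have c2 : P2 * E k = E k * P2 := by
    apply list_prod_comm
    intro x hx
    obtain ⟨d, hd, rfl⟩ := List.mem_map.1 hx
    have := List.mem_range.1 hd
    exact pow_comm_of (R.R2 k (k + 2 + d) (k + 2 + r) (by omega) (Or.inl (by omega))) _
  have hX : X * E k = q • (E k * X) - q • Y := by
    have h := R.rec' k (k + 2 + r) (by omega)
    rw [← hYd, ← hXd] at h
    rw [h, smul_sub, smul_smul, mul_inv_cancel₀ hq, one_smul]
    abel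
  have hYX : Y * X = q • (X * Y) := R.R11 k (k + 1) (k + 2 + r) (by omega) (by omega)
  have hY : E k * Y = q • (Y * E k) := R.R4 k (k + 2 + r) (by omega)
  have e1 := pow_mul_gen q hq hq1 hX hYX (b (k + 1) (k + 2 + r))
  have e2 := pow_mul_gen2 q hq hY (b k (k + 2 + r))
  set u := b k (k + 2 + r) with hu
  set v := b (k + 1) (k + 2 + r) with hv
  have hqv : q ^ ((v : ℤ) - (u : ℤ)) = q ^ v * q⁻¹ ^ u := by
    rw [zpow_sub₀ hq, zpow_natCast, zpow_natCast, inv_pow, div_eq_mul_inv]
  calc P1 * (Y ^ u * X ^ v) * P2 * E k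
      = P1 * (Y ^ u * (X ^ v * E k)) * P2 := by
        rw [mul_assoc (P1 * (Y ^ u * X ^ v)), c2]
        simp only [mul_assoc]
    _ = P1 * (q ^ v • ((Y ^ u * E k) * X ^ v) +
          (-q * qn q v) • (Y ^ (u + 1) * X ^ (v - 1))) * P2 := by
        rw [e1, mul_add, mul_smul_comm, mul_smul_comm, ← mul_assoc (Y ^ u) (E k),
          ← mul_assoc (Y ^ u) Y, ← pow_succ]
    _ = q ^ ((v : ℤ) - (u : ℤ)) • ((P1 * E k) * (Y ^ u * X ^ v) * P2) +
          (-q * qn q v) • (P1 * (Y ^ (u + 1) * X ^ (v - 1)) * P2) := by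
        rw [e2, hqv, mul_add, add_mul, smul_mul_assoc, smul_smul, mul_smul_comm, mul_smul_comm,
          smul_mul_assoc, smul_mul_assoc]
        simp only [mul_assoc]
    _ = _ := by
        rw [c1]
        simp only [mul_assoc]

theorem colM_mul_last (q : ℂ) (E : ℕ → B) (R : RootRel q E) (b : ℕ → ℕ → ℕ) (k : ℕ) :
    colM q E b (k + 1) * E k = colM q E (inc b k (k + 1)) (k + 1) := by
  unfold colM
  rw [List.range_succ, List.map_append, List.prod_append, List.map_append, List.prod_append,
    List.map_singleton, List.prod_singleton, List.map_singleton, List.prod_singleton, mul_assoc]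
  have h1 : inc b k (k + 1) k (k + 1) = b k (k + 1) + 1 := by simp [inc, upd]
  have h2 : ((List.range k).map fun i => rv q E i (k + 1) ^ inc b k (k + 1) i (k + 1)) =
      ((List.range k).map fun i => rv q E i (k + 1) ^ b i (k + 1)) := by
    apply List.map_congr_left
    intro i hi
    have h3 := List.mem_range.1 hi
    have h4 : i ≠ k := by omega
    simp [inc, upd, h4]
  rw [h1, h2, R.base, pow_succ]

theorem cpr_mul (q : ℂ) (hq : q ≠ 0) (hq1 : q ^ 2 ≠ 1) (E : ℕ → B) (R : RootRel q E)
    (b : ℕ → ℕ → ℕ) (k M : ℕ) (hM : k + 1 ≤ M) :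
    cpr q E M b * E k
      = (∑ j ∈ Finset.Ioc (k + 1) M,
          (wR M q b k j * (-q * qn q (b (k + 1) j))) • cpr q E M (mvc b k j))
        + wR M q b k (k + 1) • cpr q E M (inc b k (k + 1)) := by
  induction M, hM using Nat.le_induction with
  | base =>
    rw [Finset.Ioc_self, Finset.sum_empty, zero_add, wR, Finset.Ioc_self, Finset.prod_empty,
      one_smul, cpr_succ, cpr_succ, mul_assoc, colM_mul_last q E R]
    congr 1
    apply cpr_congr
    intro i j hj
    have : j ≠ k + 1 := by omega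
    simp [inc, upd, this]
  | succ M hM ih =>
    have hw : ∀ j, j ≤ M → wR (M + 1) q b k j =
        wR M q b k j * q ^ ((b (k + 1) (M + 1) : ℤ) - (b k (M + 1) : ℤ)) := by
      intro j hj
      unfold wR
      rw [Finset.prod_Ioc_succ_top hj]
    have hw1 : wR (M + 1) q b k (M + 1) = 1 := by
      unfold wR
      rw [Finset.Ioc_self, Finset.prod_empty]
    rw [Finset.sum_Ioc_succ_top hM, hw1, one_mul, cpr_succ, mul_assoc,
      colM_mul q hq hq1 E R b k (M + 1) (by omega), mul_add, mul_smul_comm, mul_smul_comm,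
      ← mul_assoc, ih]
    have hc1 : cpr q E (M + 1) (mvc b k (M + 1)) =
        cpr q E M b * colM q E (mvc b k (M + 1)) (M + 1) := by
      rw [cpr_succ]
      congr 1
      apply cpr_congr
      intro i j hj
      have : j ≠ M + 1 := by omega
      simp [mvc, inc, upd, this]
    have hc2 : ∀ j, j ≤ M → cpr q E (M + 1) (mvc b k j) =
        cpr q E M (mvc b k j) * colM q E b (M + 1) := by
      intro j hj
      rw [cpr_succ]
      congr 1
      apply colM_congr
      intro i _
      have : M + 1 ≠ j := by omega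
      simp [mvc, inc, upd, this]
    have hc3 : cpr q E (M + 1) (inc b k (k + 1)) =
        cpr q E M (inc b k (k + 1)) * colM q E b (M + 1) := by
      rw [cpr_succ]
      congr 1
      apply colM_congr
      intro i _
      have : M ≠ k := by omega
      simp [inc, upd, this]
    rw [hc1, hc3, hw (k + 1) hM]
    rw [add_mul, smul_add, Finset.sum_mul, Finset.smul_sum]
    have hs : ∑ j ∈ Finset.Ioc (k + 1) M, q ^ ((b (k + 1) (M + 1) : ℤ) - (b k (M + 1) : ℤ)) •
        ((wR M q b k j * (-q * qn q (b (k + 1) j))) • cpr q E M (mvc b k j) *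
          colM q E b (M + 1)) =
        ∑ j ∈ Finset.Ioc (k + 1) M,
          (wR (M + 1) q b k j * (-q * qn q (b (k + 1) j))) • cpr q E (M + 1) (mvc b k j) := by
      refine Finset.sum_congr rfl fun j hj => ?_
      have hj' := (Finset.mem_Ioc.1 hj).2
      rw [hc2 j hj', hw j hj', smul_mul_assoc, smul_smul]
      congr 1
      ring
    rw [hs, smul_mul_assoc, smul_smul, mul_comm (q ^ _) (wR M q b k (k + 1))]
    abel

/-- RM: right multiplication of a monomial by `E_k`. -/
theorem s_rm (hL : S_LEXCOL) (hR : S_ROOT) : S_RM := by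
  intro B _ _ N q E hq hq1 hq2 hS b k hk
  have R := hR B q E hq hq2 hS
  have hm : ∀ b', mon N q E b' = cpr q E N b' := fun b' => hL B N q E hq hq2 hS b'
  simp only [hm]
  exact cpr_mul q hq hq1 E R b k N hk

end

end Pool.Agent.Helper24.SQ
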