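import Pool.Agent.Helper19.SQ.GoalsQ2

/-!
Project SQ (MP_bb32d1_al), packet SQ-LF: `L delta(F_k) = oF_k L`.
-/

set_option autoImplicit false

namespace Pool.Agent.Helper24.SQ

noncomputable section

open Pool.Agent.Helper19.SQ Matrix

variable {B : Type} [Ring B] [Algebra ℂ B]

theorem rv_base (q : ℂ) (E : ℕ → B) (k : ℕ) : rv q E k (k + 1) = E k := by
  unfold rv
  rw [Nat.add_sub_cancel_left]
  rfl

/-- the entries of the identity. -/
theorem l2 (hKI : S_KI) (hCM : S_CM1) (N l : ℕ) (q : ℂ) (E F K : ℕ → B) (hP : Par N l q)
    (hG : GlRel N l q E F K) (k a b : ℕ) (hk : k < N) (ha : a ≤ N) (_hb : b ≤ N) :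
    Lent q E K a b * F k + (if b = k then Lent q E K a (k + 1) * (K (k + 1) * ki l K k) else 0) =
      q ^ (-pr a k) • (F k * Lent q E K a b) + (if a = k + 1 then Lent q E K k b else 0) := by
  have hl : 1 ≤ l := by have := hP.h3; omega
  obtain ⟨kc1, kc2, kc3, kc4, _, _⟩ := hKI B l K hl hG.K_comm hG.K_pow
  obtain ⟨cm1, cm2, cm3⟩ := hCM B N l q E F K hP hG
  have hq : q ≠ 0 := hP.prim.ne_zero (by omega)
  have hq2 : q - q⁻¹ ≠ 0 := by
    intro h
    have h1 : q ^ 2 = 1 := by
      have := congrArg (fun x => x * q) h
      simp only [sub_mul, zero_mul, inv_mul_cancel₀ hq] at this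
      rw [pow_two]
      linear_combination this
    have h2 := (hP.prim.pow_eq_one_iff_dvd 2).1 h1
    have h3 := Nat.le_of_dvd (by norm_num) h2
    have := hP.h3
    omega
  rcases lt_trichotomy a b with hab | hab | hab
  · -- a < b
    have h1 : Lent q E K a b = 0 := by
      unfold Lent
      rw [if_neg hab.ne, if_neg (not_lt.2 hab.le)]
    have h2 : (if b = k then Lent q E K a (k + 1) * (K (k + 1) * ki l K k) else 0) = (0 : B) := by
      split_ifs with h
      · unfold Lent
        rw [if_neg (by omega), if_neg (by omega), zero_mul]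
      · rfl
    have h3 : (if a = k + 1 then Lent q E K k b else 0) = (0 : B) := by
      split_ifs with h
      · unfold Lent
        rw [if_neg (by omega), if_neg (by omega)]
      · rfl
    rw [h1, h2, h3, zero_mul, mul_zero, smul_zero]
  · subst hab
    have h1 : Lent q E K a a = K a := by
      unfold Lent
      rw [if_pos rfl]
    have h2 : (if a = k then Lent q E K a (k + 1) * (K (k + 1) * ki l K k) else 0) = (0 : B) := by
      split_ifs with h
      · unfold Lent
        rw [if_neg (by omega), if_neg (by omega), zero_mul]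
      · rfl
    have h3 : (if a = k + 1 then Lent q E K k a else 0) = (0 : B) := by
      split_ifs with h
      · unfold Lent
        rw [if_neg (by omega), if_neg (by omega)]
      · rfl
    rw [h1, h2, h3, add_zero, add_zero, hG.KF]
  · have h1 : Lent q E K a b = (1 - q⁻¹ ^ 2) • (rv q E b a * K a) := by
      unfold Lent
      rw [if_neg (by omega), if_pos hab]
    have h2 : Lent q E K a b * F k =
        q ^ (-pr a k) • ((1 - q⁻¹ ^ 2) • (rv q E b a * F k * K a)) := by
      rw [h1, smul_mul_assoc, mul_assoc, hG.KF, mul_smul_comm, smul_comm, ← mul_assoc]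
    have h3 : F k * Lent q E K a b = (1 - q⁻¹ ^ 2) • (F k * rv q E b a * K a) := by
      rw [h1, mul_smul_comm, mul_assoc]
    rw [h2, h3]
    by_cases hbk : b = k
    · subst hbk
      rw [if_pos rfl]
      by_cases hak : a = b + 1
      · subst hak
        rw [if_pos rfl, rv_base]
        have h4 : Lent q E K (b + 1) (b + 1) = K (b + 1) := by
          unfold Lent
          rw [if_pos rfl]
        have h5 : Lent q E K b b = K b := by
          unfold Lent
          rw [if_pos rfl]
        rw [h4, h5]
        have h6 : E b * F b = F b * E b + (q - q⁻¹)⁻¹ •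
            (K b * ki l K (b + 1) - ki l K b * K (b + 1)) := by
          have := hG.EF b hk
          unfold ki
          rw [← this]
          abel
        have hpr : -pr (b + 1) b = 1 := by
          unfold pr
          rw [if_neg (by omega), if_pos rfl]
          norm_num
        rw [hpr, zpow_one, h6, add_mul, smul_mul_assoc, sub_mul, smul_add, smul_add,
          smul_smul (1 - q⁻¹ ^ 2) (q - q⁻¹)⁻¹,
          smul_smul q ((1 - q⁻¹ ^ 2) * (q - q⁻¹)⁻¹)]
        have hc : q * ((1 - q⁻¹ ^ 2) * (q - q⁻¹)⁻¹) = 1 := by
          rw [← mul_assoc]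
          have : q * (1 - q⁻¹ ^ 2) = q - q⁻¹ := by
            rw [pow_two, mul_sub, mul_one, ← mul_assoc, mul_inv_cancel₀ hq, one_mul]
          rw [this, mul_inv_cancel₀ hq2]
        have hc' : q * ((1 - q⁻¹ ^ 2) * (q - q⁻¹)⁻¹) = 1 := hc
        rw [hc', one_smul]
        have h7 : K b * ki l K (b + 1) * K (b + 1) = K b := by
          rw [mul_assoc, kc2, mul_one]
        have h8 : ki l K b * K (b + 1) * K (b + 1) = K (b + 1) * (K (b + 1) * ki l K b) := by
          rw [← kc3, mul_assoc, ← kc3]
        rw [h7, h8]
        abel
      · rw [if_neg hak, add_zero]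
        have h4 : Lent q E K a (b + 1) = (1 - q⁻¹ ^ 2) • (rv q E (b + 1) a * K a) := by
          unfold Lent
          rw [if_neg hak, if_pos (by omega)]
        have h5 : rv q E b a * F b = F b * rv q E b a - rv q E (b + 1) a * kk l K (b + 1) b := by
          have := cm2 b a (by omega) ha
          rw [sub_eq_iff_eq_add] at this
          rw [this]
          abel
        have hpr : -pr a b = 0 := by
          unfold pr
          rw [if_neg (by omega), if_neg hak]
          norm_num
        rw [hpr, zpow_zero, one_smul, one_smul, h4, h5, sub_mul, smul_sub, smul_mul_assoc]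
        have h6 : rv q E (b + 1) a * kk l K (b + 1) b * K a =
            rv q E (b + 1) a * K a * (K (b + 1) * ki l K b) := by
          unfold kk
          rw [mul_assoc, mul_assoc, mul_assoc, ← kc3, ← mul_assoc (K (b + 1)), hG.K_comm (b + 1) a,
            mul_assoc]
        rw [h6]
        abel
    · rw [if_neg hbk, add_zero]
      by_cases hak : a = k + 1
      · subst hak
        rw [if_pos rfl]
        have hbk' : b < k := by omega
        have h4 : Lent q E K k b = (1 - q⁻¹ ^ 2) • (rv q E b k * K k) := by
          unfold Lent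
          rw [if_neg (by omega), if_pos hbk']
        have h5 : rv q E b (k + 1) * F k = F k * rv q E b (k + 1) +
            q⁻¹ • (rv q E b k * kk l K k (k + 1)) := by
          have := cm3 b k hbk' (by omega)
          rw [← this]
          abel
        have hpr : -pr (k + 1) k = 1 := by
          unfold pr
          rw [if_neg (by omega), if_pos rfl]
          norm_num
        have h6 : rv q E b k * kk l K k (k + 1) * K (k + 1) = rv q E b k * K k := by
          unfold kk
          rw [mul_assoc, mul_assoc, kc2, mul_one]
        rw [hpr, zpow_one, h4, h5, add_mul, smul_mul_assoc, h6, smul_add, smul_add,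
          smul_comm (1 - q⁻¹ ^ 2) q⁻¹, smul_smul q q⁻¹, mul_inv_cancel₀ hq, one_smul]
      · rw [if_neg hak, add_zero]
        rw [cm1 b a k hab ha (fun h => hbk h.symm) (fun h => hak h.symm)]

/-- LF. -/
theorem sLF (hKI : S_KI) (hCM : S_CM1) : S_LF := by
  intro B _ _ N l q E F K hP hG k
  ext a b
  rw [Matrix.mul_apply, Matrix.mul_apply]
  simp only [Lmat, dF, oF, Matrix.of_apply]
  have hL : ∑ c : Fin (N + 1), Lent q E K (a : ℕ) (c : ℕ) *
      ((if c = b then F k else 0) +
        (if (c : ℕ) = k + 1 ∧ (b : ℕ) = k then K (k + 1) * ki l K k else 0)) =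
      Lent q E K a b * F k + (if k < N ∧ (b : ℕ) = k then
        Lent q E K a (k + 1) * (K (k + 1) * ki l K k) else 0) := by
    simp only [mul_add, Finset.sum_add_distrib]
    congr 1
    · rw [Finset.sum_eq_single b]
      · rw [if_pos rfl]
      · intro c _ hc
        rw [if_neg hc, mul_zero]
      · intro h
        exact absurd (Finset.mem_univ _) h
    · split_ifs with h
      · rw [Finset.sum_eq_single (⟨k + 1, by omega⟩ : Fin (N + 1))]
        · rw [if_pos ⟨rfl, h.2⟩]
        · intro c _ hc
          rw [if_neg, mul_zero]
          rintro ⟨h1, _⟩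
          exact hc (Fin.ext h1)
        · intro h
          exact absurd (Finset.mem_univ _) h
      · apply Finset.sum_eq_zero
        intro c _
        rw [if_neg, mul_zero]
        rintro ⟨h1, h2⟩
        apply h
        refine ⟨?_, h2⟩
        have := c.2
        omega
  have hR : ∑ c : Fin (N + 1), ((if a = c then q ^ (-pr (a : ℕ) k) • F k else 0) +
        (if (a : ℕ) = k + 1 ∧ (c : ℕ) = k then 1 else 0)) * Lent q E K (c : ℕ) (b : ℕ) =
      q ^ (-pr (a : ℕ) k) • (F k * Lent q E K a b) +
        (if (a : ℕ) = k + 1 then Lent q E K k b else 0) := by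
    simp only [add_mul, Finset.sum_add_distrib]
    congr 1
    · rw [Finset.sum_eq_single a]
      · rw [if_pos rfl, smul_mul_assoc]
      · intro c _ hc
        rw [if_neg (fun h => hc h.symm), zero_mul]
      · intro h
        exact absurd (Finset.mem_univ _) h
    · split_ifs with h
      · have ha := a.2
        rw [Finset.sum_eq_single (⟨k, by omega⟩ : Fin (N + 1))]
        · rw [if_pos ⟨h, rfl⟩, one_mul]
        · intro c _ hc
          rw [if_neg, zero_mul]
          rintro ⟨_, h1⟩
          exact hc (Fin.ext h1)
        · intro h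
          exact absurd (Finset.mem_univ _) h
      · apply Finset.sum_eq_zero
        intro c _
        rw [if_neg, zero_mul]
        rintro ⟨h1, _⟩
        exact h h1
  rw [hL, hR]
  have ha := a.2
  have hb := b.2
  by_cases hk : k < N
  · have h := l2 hKI hCM N l q E F K hP hG k a b hk (by omega) (by omega)
    rw [← h]
    congr 1
    by_cases h' : (b : ℕ) = k
    · rw [if_pos ⟨hk, h'⟩, if_pos h']
    · rw [if_neg (fun h => h' h.2), if_neg h']
  · have hF : F k = 0 := hG.F_out k (by omega)
    rw [hF, if_neg (fun h => hk h.1), if_neg (by omega), mul_zero, zero_mul, smul_zero]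

end

end Pool.Agent.Helper24.SQ
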