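import Pool.Agent.Helper19.SQ.GoalsB

/-!
# Project SQ (MP_bb32d1_al), packet DL
-/

set_option autoImplicit false

namespace Pool.Agent.Helper24.SQ

open Pool.Agent.Helper19.SQ Pool.Agent.Helper34.SQ Pool.Agent.Helper41.SQ Matrix

/-- the linear functional `M ↦ v M u`. -/
noncomputable def vMu {A : Type} [Ring A] [Algebra ℂ A] {κ : Type} [Fintype κ] (v u : κ → A) :
    Matrix κ κ A →ₗ[ℂ] A where
  toFun M := ∑ x, v x * ∑ y, M x y * u y
  map_add' M M' := by
    simp only [Matrix.add_apply, add_mul, Finset.sum_add_distrib, mul_add]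
  map_smul' c M := by
    simp only [Matrix.smul_apply, RingHom.id_apply, smul_mul_assoc, ← Finset.smul_sum,
      mul_smul_comm]

theorem bvu_eq {A : Type} [Ring A] [Algebra ℂ A] {κ : Type} [Fintype κ] [DecidableEq κ]
    (v u : κ → A) (Y : Matrix κ κ A) (k : ℕ) : bvu v u Y k = vMu v u (Y ^ k) := rfl

theorem piv_map {A B : Type} [Ring A] [Algebra ℂ A] [Ring B] [Algebra ℂ B] (f : A →ₐ[ℂ] B)
    (b β : ℕ → A) (k : ℕ) : f (piv b β k) = piv (fun i => f (b i)) (fun i => f (β i)) k := by
  cases k with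
  | zero => simp [piv]
  | succ k => simp [piv, map_sub, map_smul, map_sum, map_mul]

theorem b_dl (h0 : Pool.Agent.Helper34.SQ.S_CORE0) (hDL : S_DLABS) (hFD : S_FDIM) : S_DL := by
  intro N l _ q D hl s C hP hC e he K hK m hnil
  obtain ⟨-, -, -, -, -, -, gb, gβ, -, -, grel, -, -⟩ := h0 (A N l q) (Fin (N + 1)) C
  have hfd := hFD N l q hP
  let R := Subalgebra.center ℂ (A N l q)
  have hfdR : FiniteDimensional ℂ R :=
    inferInstanceAs (FiniteDimensional ℂ (Subalgebra.toSubmodule R))
  let b' : ℕ → R := fun k => ⟨C.b k, Subalgebra.mem_center_iff.2 fun a => (gb k a).symm⟩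
  let β' : ℕ → R := fun k => ⟨C.β k, Subalgebra.mem_center_iff.2 fun a => (gβ k a).symm⟩
  let e' : R := ⟨e m, Subalgebra.mem_center_iff.2 fun a => (he.cen m a).symm⟩
  have hinj : Function.Injective R.val := Subtype.val_injective
  have hrel : ∀ k, b' k = β' k + ∑ r ∈ Finset.range k, β' r * b' (k - 1 - r) := by
    intro k
    apply hinj
    rw [map_add, map_sum]
    simp only [map_mul]
    exact grel k
  -- the recurrence
  have hX2 : (X2 C.ε C.X ^ l - 1) ^ K = 0 := by
    rw [X2_eq, ← map_pow, ← map_one (Phi C.ε), ← map_sub, ← map_pow, hC.X, hK, map_zero]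
  have hdeg : ((Polynomial.X ^ l - 1 : Polynomial ℂ) ^ K).natDegree < l * K + 1 := by
    have h1 : (Polynomial.X ^ l - 1 : Polynomial ℂ).natDegree ≤ l := by
      refine (Polynomial.natDegree_sub_le _ _).trans ?_
      rw [Polynomial.natDegree_X_pow, Polynomial.natDegree_one]
      simp
    have h2 := Polynomial.natDegree_pow_le (p := (Polynomial.X ^ l - 1 : Polynomial ℂ)) (n := K)
    have h3 := Nat.mul_le_mul_left K h1
    rw [mul_comm K l] at h3
    omega
  have hsum : ∑ i ∈ Finset.range (l * K + 1),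
      ((Polynomial.X ^ l - 1 : Polynomial ℂ) ^ K).coeff i • (X2 C.ε C.X) ^ i = 0 := by
    rw [← Polynomial.aeval_eq_sum_range' hdeg]
    simp only [map_pow, map_sub, Polynomial.aeval_X, map_one]
    exact hX2
  have hrec : ∀ j, ∑ i ∈ Finset.range (l * K + 1),
      ((Polynomial.X ^ l - 1 : Polynomial ℂ) ^ K).coeff i • b' (i + j) = 0 := by
    intro j
    apply hinj
    rw [map_sum, map_zero]
    have h1 : ∀ i, R.val (((Polynomial.X ^ l - 1 : Polynomial ℂ) ^ K).coeff i • b' (i + j)) =
        vMu C.v C.u (((Polynomial.X ^ l - 1 : Polynomial ℂ) ^ K).coeff i •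
          (X2 C.ε C.X) ^ (i + j)) := by
      intro i
      rw [map_smul, map_smul]
      rfl
    rw [Finset.sum_congr rfl fun i _ => h1 i, ← map_sum]
    have h2 : ∑ i ∈ Finset.range (l * K + 1),
        ((Polynomial.X ^ l - 1 : Polynomial ℂ) ^ K).coeff i • (X2 C.ε C.X) ^ (i + j) =
        (∑ i ∈ Finset.range (l * K + 1),
        ((Polynomial.X ^ l - 1 : Polynomial ℂ) ^ K).coeff i • (X2 C.ε C.X) ^ i) *
          (X2 C.ε C.X) ^ j := by
      rw [Finset.sum_mul]
      refine Finset.sum_congr rfl fun i _ => ?_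
      rw [pow_add, smul_mul_assoc]
    rw [h2, hsum, zero_mul, map_zero]
  have hnil' : ∀ k, IsNilpotent ((b' k - algebraMap ℂ R (Bco q m k)) * e') := by
    intro k
    rw [← IsNilpotent.map_iff hinj]
    exact hnil k
  obtain ⟨K', hK'⟩ := hDL R l q hP.prim hP.odd m b' β' e' K
    (hinj (he.idem m)) hrel hrec hnil'
  refine ⟨K', fun p hp => ?_⟩
  have h := congrArg R.val (hK' p hp)
  rw [map_mul, map_smul, pair_eq_range, map_sum] at h
  have h4 : ∀ k, R.val (p.coeff k • piv b' β' k) = p.coeff k • C.pi k := by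
    intro k
    rw [map_smul, piv_map]
    rfl
  refine Eq.trans ?_ h
  change _ * R.val e' = _ * R.val e'
  congr 1
  exact Finset.sum_congr rfl fun k _ => (h4 k).symm

end Pool.Agent.Helper24.SQ
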