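import Pool.Agent.Helper19.SQ.GoalsB

/-!
# Project SQ (MP_bb32d1_al), packet XLAY: polynomials in `X` on the layers of `V (x) M`
-/

set_option autoImplicit false

namespace Pool.Agent.Helper24.SQ

open Pool.Agent.Helper19.SQ

theorem actM_add {N l : ℕ} {q : ℂ} {H : A N l q →ₐ[ℂ] Mat N (A N l q)} {M : Type}
    [AddCommGroup M] [Module ℂ M] [Module (A N l q) M] [IsScalarTower ℂ (A N l q) M]
    (Y Z : Mat N (A N l q)) (f : Ten H M) : actM (Y + Z) f = actM Y f + actM Z f := by
  funext i
  change ∑ j, (Y + Z) i j • f j = ∑ j, Y i j • f j + ∑ j, Z i j • f j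
  simp only [Matrix.add_apply, add_smul, Finset.sum_add_distrib]

theorem actM_smul {N l : ℕ} {q : ℂ} {H : A N l q →ₐ[ℂ] Mat N (A N l q)} {M : Type}
    [AddCommGroup M] [Module ℂ M] [Module (A N l q) M] [IsScalarTower ℂ (A N l q) M]
    (c : ℂ) (Y : Mat N (A N l q)) (f : Ten H M) : actM (c • Y) f = c • actM Y f := by
  funext i
  change ∑ j, (c • Y) i j • f j = c • ∑ j, Y i j • f j
  simp only [Matrix.smul_apply, smul_assoc, Finset.smul_sum]

theorem b_xlay (hL : S_LAYX) : S_XLAY := by
  intro N l _ q D hP hX M _ _ _ _ lam m hm j p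
  have hLX := hL N l q D hP M lam m hm
  have hmono : ∀ i j : Fin (N + 1), i ≤ j → Ulow D.dl m i ≤ Ulow D.dl m j := by
    intro i j hij
    apply Submodule.span_mono
    rintro f ⟨i', h, rfl⟩
    exact ⟨i', lt_of_lt_of_le h hij, rfl⟩
  have hU : ∀ f ∈ Ulow D.dl m j, actM (Xm N l q) f ∈ Ulow D.dl m j := by
    intro f hf
    have h1 : Submodule.map (actMA (H := D.dl) (M := M) (Xm N l q) hX) (Ulow D.dl m j) ≤
        Ulow D.dl m j := by
      unfold Ulow
      rw [Submodule.map_span_le]
      rintro f ⟨i, hi, rfl⟩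
      change actM (Xm N l q) (tv D.dl i m) ∈ Ulow D.dl m j
      have h2 := hmono i j hi.le (hLX i)
      have h3 : qz q (2 * xl lam i) • tv D.dl i m ∈ Ulow D.dl m j :=
        Submodule.smul_of_tower_mem _ _ (Submodule.subset_span ⟨i, hi, rfl⟩)
      have h4 := Submodule.add_mem _ h2 h3
      rw [sub_add_cancel] at h4
      exact h4
    exact h1 (Submodule.mem_map_of_mem hf)
  have hpow : ∀ k : ℕ, actM (Xm N l q ^ k) (tv D.dl j m) -
      (qz q (2 * xl lam j)) ^ k • tv D.dl j m ∈ Ulow D.dl m j := by
    intro k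
    induction k with
    | zero =>
      rw [pow_zero, pow_zero, actM_one, one_smul, sub_self]
      exact Submodule.zero_mem _
    | succ k ih =>
      have h1 : actM (Xm N l q ^ (k + 1)) (tv D.dl j m) -
          (qz q (2 * xl lam j)) ^ (k + 1) • tv D.dl j m =
          actM (Xm N l q) (actM (Xm N l q ^ k) (tv D.dl j m) -
            (qz q (2 * xl lam j)) ^ k • tv D.dl j m) +
          (qz q (2 * xl lam j)) ^ k • (actM (Xm N l q) (tv D.dl j m) -
            qz q (2 * xl lam j) • tv D.dl j m) := by
        rw [pow_succ', actM_mul, map_sub, map_smul, smul_sub, smul_smul, pow_succ]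
        abel
      rw [h1]
      exact Submodule.add_mem _ (hU _ ih) (Submodule.smul_of_tower_mem _ _ (hLX j))
  induction p using Polynomial.induction_on' with
  | add p p' h h' =>
    have h1 : pev (p + p') (Xm N l q) = pev p (Xm N l q) + pev p' (Xm N l q) := by
      unfold pev
      rw [map_add]
    rw [h1, actM_add, Polynomial.eval_add, add_smul, add_sub_add_comm]
    exact Submodule.add_mem _ h h'
  | monomial n a =>
    have h1 : pev (Polynomial.monomial n a) (Xm N l q) = a • Xm N l q ^ n := by
      unfold pev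
      rw [Polynomial.aeval_monomial, Algebra.smul_def]
    rw [h1, actM_smul, Polynomial.eval_monomial, mul_smul, ← smul_sub]
    exact Submodule.smul_of_tower_mem _ _ (hpow n)

end Pool.Agent.Helper24.SQ
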