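import Pool.Agent.Helper34.SQ.GoalsT

/-!
Project SQ (MP_bb32d1_al), packet SQ-BLX.
-/

set_option autoImplicit false

namespace Pool.Agent.Helper24.SQ

noncomputable section

open Matrix Pool.Agent.Helper19.SQ Pool.Agent.Helper34.SQ

theorem t_blx : Pool.Agent.Helper34.SQ.S_BLX := by
  intro A _ _ ι _ _ l C c m
  classical
  have hF : ∀ m', Phi C.ε (Matrix.diagonal fun _ => C.e m') * D2 C.δ C.ε (C.e m)
      = D2 C.δ C.ε (C.e m) * Phi C.ε (Matrix.diagonal fun _ => C.e m') := by
    intro m'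
    rw [D2_eq, ← map_mul, diag_comm (C.e_cen m'), map_mul]
  have hone : ∑ m' ∈ C.types, Phi C.ε (Matrix.diagonal fun _ => C.e m') = 1 := by
    rw [← map_sum]
    have h1 : ∑ m' ∈ C.types, (Matrix.diagonal fun _ => C.e m' : Matrix ι ι A) = 1 := by
      ext x y
      rw [Matrix.sum_apply]
      by_cases h : x = y
      · subst h
        simp only [Matrix.diagonal_apply_eq, Matrix.one_apply_eq]
        exact C.e_sum
      · simp only [Matrix.diagonal_apply_ne _ h, Matrix.one_apply_ne h, Finset.sum_const_zero]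
    rw [h1, map_one]
  have hP : ∀ m', pev (C.pc c) (X2 C.ε C.X) * Phi C.ε (Matrix.diagonal fun _ => C.e m')
      = D2 C.δ C.ε (C.e (m' - al c)) * Phi C.ε (Matrix.diagonal fun _ => C.e m') := by
    intro m'
    rw [pev_X2, D2_eq, ← map_mul, ← map_mul, C.BL1]
  have hterm : ∀ m' ∈ C.types, pev (C.pc c) (X2 C.ε C.X) *
      (Phi C.ε (Matrix.diagonal fun _ => C.e m') * D2 C.δ C.ε (C.e m)) =
      if m' = m + al c then D2 C.δ C.ε (C.e m) * Phi C.ε (Matrix.diagonal fun _ => C.e (m + al c))
      else 0 := by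
    intro m' _
    rw [hF, D2_eq]
    have hc : Phi C.ε (C.δ (C.e m)) * Phi C.ε (Matrix.diagonal fun _ => C.e m') =
      Phi C.ε (Matrix.diagonal fun _ => C.e m') * Phi C.ε (C.δ (C.e m)) := (hF m').symm
    rw [hc, ← mul_assoc, hP, mul_assoc, ← hc, ← mul_assoc, ← D2_eq C.δ C.ε (C.e m), ← D2_mul]
    by_cases h : m' = m + al c
    · subst h
      rw [if_pos rfl, add_sub_cancel_right, C.e_idem]
    · rw [if_neg h, C.e_orth _ _ (fun h' => h (by rw [← h', sub_add_cancel]))]
      rw [D2_eq, map_zero, map_zero, zero_mul]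
  calc pev (C.pc c) (X2 C.ε C.X) * D2 C.δ C.ε (C.e m)
      = pev (C.pc c) (X2 C.ε C.X) *
        ((∑ m' ∈ C.types, Phi C.ε (Matrix.diagonal fun _ => C.e m')) * D2 C.δ C.ε (C.e m)) := by
          rw [hone, one_mul]
    _ = ∑ m' ∈ C.types, (if m' = m + al c then
          D2 C.δ C.ε (C.e m) * Phi C.ε (Matrix.diagonal fun _ => C.e (m + al c)) else 0) := by
          rw [Finset.sum_mul, Finset.mul_sum]
          exact Finset.sum_congr rfl hterm
    _ = D2 C.δ C.ε (C.e m) * X1 (C.ε (C.e (m + al c))) := by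
          rw [Finset.sum_ite_eq' C.types (m + al c), X1_delta]
          by_cases h : m + al c ∈ C.types
          · rw [if_pos h]
          · rw [if_neg h, C.e_types _ h]
            have h0 : (Matrix.diagonal fun _ => (0 : A) : Matrix ι ι A) = 0 :=
              Matrix.diagonal_zero
            rw [h0, map_zero, mul_zero]

end

end Pool.Agent.Helper24.SQ
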