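import Pool.Agent.Helper19.SQ.GoalsB

/-!
# Project SQ (MP_bb32d1_al), packet EVAL: the action of `pi_k` on singular vectors
-/

set_option autoImplicit false

namespace Pool.Agent.Helper24.SQ

open Pool.Agent.Helper19.SQ Pool.Agent.Helper34.SQ Pool.Agent.Helper41.SQ Matrix

theorem trace_X1 {A : Type} [Ring A] {ι : Type} [Fintype ι]
    [DecidableEq ι] (M : Matrix ι ι A) : Matrix.trace (X1 M) = Fintype.card ι • Matrix.trace M := by
  have h : ∀ x : ι × ι, X1 M x x = M x.2 x.2 := by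
    intro x
    simp only [X1, Matrix.of_apply, if_true]
  unfold Matrix.trace
  rw [Fintype.sum_prod_type]
  have h' : ∀ x y : ι, (X1 M).diag (x, y) = M.diag y := fun x y => h (x, y)
  simp only [h', Finset.sum_const, Finset.card_univ]

theorem trace_Phi {A : Type} [Ring A] [Algebra ℂ A] {ι : Type} [Fintype ι]
    [DecidableEq ι] (f : A →ₐ[ℂ] Matrix ι ι A) (M : Matrix ι ι A) :
    Matrix.trace (Phi f M) = Matrix.trace (f (Matrix.trace M)) := by
  simp only [Matrix.trace, Matrix.diag_apply, Phi_apply, map_sum, Matrix.sum_apply]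
  rw [Fintype.sum_prod_type]
  exact Finset.sum_comm

theorem xl_subE {N l : ℕ} (lam : Fin (N + 1) → ZMod l) (i j : Fin (N + 1)) :
    xl (subE lam i) j = if j = i then xl lam j - 1 else xl lam j := by
  unfold xl subE
  split_ifs with h
  · ring
  · ring

theorem b_eval (h0 : Pool.Agent.Helper34.SQ.S_CORE0) (hTR : Pool.Agent.Helper34.SQ.S_TR)
    (hHC : S_HC) (hCH1 : S_CH1) (hCH2 : S_CH2) (hH : S_HARM) (hZ : S_ZUNIV) (hFD : S_FDIM)
    (hTYP : S_TYP) : S_EVAL := by
  intro N l _ q D hl s C hP hs hC k M _ _ _ _ lam v hv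
  obtain ⟨-, -, -, -, g5, -, -, -, -, -, -, gcen, gφ⟩ := h0 (A N l q) (Fin (N + 1)) C
  have htor : tor N l q hl s (C.pi k) = C.pi k := by
    rw [← hC.φ]
    exact gφ k
  obtain ⟨c, hc⟩ := hHC N l q hl hP s hs (C.pi k) htor
  suffices hcl : c lam = pim q (ty lam) k by
    rw [hc M lam v hv, hcl]
  have hfd := hFD N l q hP
  obtain ⟨hfdZ, hsing, hspan, -⟩ := hZ N l q hP hfd lam
  have hact : ∀ z : Zl q lam, C.pi k • z = c lam • z := by
    intro z
    have hz : z ∈ Submodule.span (A N l q) {zgen q lam} := by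
      rw [hspan]; exact Submodule.mem_top
    obtain ⟨a, rfl⟩ := Submodule.mem_span_singleton.1 hz
    rw [← mul_smul, gcen k a, mul_smul, hc (Zl q lam) lam (zgen q lam) hsing, smul_smul_comm]
  have hchi : chi (Zl q lam) (C.pi k) = c lam * (dZ q lam : ℂ) := chi_scalar (Zl q lam) hact
  have hXδ : ∀ a, Xm N l q * D.dl a = D.dl a * Xm N l q := by
    intro a
    have := C.Xδ a
    rw [hC.X, hC.δ] at this
    exact this
  -- the trace identity
  have htr := hTR (A N l q) (Fin (N + 1) × Fin (N + 1)) (X2 C.ε C.X) C.X1p 1 C.u C.v 1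
    (chiL (Zl q lam)) C.X2eq (by rw [mul_one, one_mul])
    (by rw [Matrix.one_mulVec]; funext y; rw [mul_one]) (chiL_mul_comm (Zl q lam)) k
  rw [mul_one, mul_one, mul_one] at htr
  have hpi : piv (bvu C.v C.u (X2 C.ε C.X)) (bvu C.v C.u C.X1p) k = C.pi k := rfl
  rw [hpi, chiL_apply _ (C.pi k), hchi] at htr
  -- the first trace
  have hX1 : chiL (Zl q lam) (Matrix.trace (C.X1p ^ k)) =
      ((N : ℂ) + 1) * ((dZ q lam : ℂ) * ∑ j, qz q (2 * xl lam j) ^ k) := by
    have h1 := g5 (Polynomial.X ^ k)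
    have h2 : ∀ Y : Matrix (Fin (N + 1) × Fin (N + 1)) (Fin (N + 1) × Fin (N + 1)) (A N l q),
        pev (Polynomial.X ^ k) Y = Y ^ k := by
      intro Y
      simp [pev]
    rw [h2, h2] at h1
    rw [h1, mul_assoc, trace_comm_of_tr (chiL_mul_comm (Zl q lam)), mul_assoc, sc_mul, C.TS,
      sc_one, mul_one, ← bd_eq, ← map_pow, bd_eq, trace_X1, map_nsmul, chiL_apply, hC.X,
      hCH1 N l q D hP hXδ lam k, Fintype.card_fin, nsmul_eq_mul]
    push_cast
    ring
  have hX2 : chiL (Zl q lam) (Matrix.trace ((X2 C.ε C.X) ^ k)) =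
      (dZ q lam : ℂ) * ∑ j, ((N : ℂ) * qz q (2 * xl lam j) ^ k +
        qz q (2 * (xl lam j - 1)) ^ k) := by
    rw [X2_eq, ← map_pow, trace_Phi, chiL_apply, hC.ε, hCH2 N l q D hP lam]
    have h1 : ∀ i : Fin (N + 1), chi (Zl q (subE lam i)) (Matrix.trace (C.X ^ k)) =
        (dZ q lam : ℂ) * ∑ j, (if j = i then qz q (2 * (xl lam j - 1)) ^ k
          else qz q (2 * xl lam j) ^ k) := by
      intro i
      rw [hC.X, hCH1 N l q D hP hXδ (subE lam i) k, (hH N l q D hP).1 (subE lam i) lam]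
      congr 1
      refine Finset.sum_congr rfl fun j _ => ?_
      rw [xl_subE]
      split_ifs <;> rfl
    rw [Finset.sum_congr rfl fun i _ => h1 i, ← Finset.mul_sum, Finset.sum_comm]
    congr 1
    refine Finset.sum_congr rfl fun j _ => ?_
    rw [← Finset.add_sum_erase _ _ (Finset.mem_univ j), if_pos rfl]
    have h2 : ∑ i ∈ Finset.univ.erase j, (if j = i then qz q (2 * (xl lam j - 1)) ^ k
          else qz q (2 * xl lam j) ^ k) = (N : ℂ) * qz q (2 * xl lam j) ^ k := by
      rw [Finset.sum_congr rfl (g := fun _ => qz q (2 * xl lam j) ^ k) fun i hi => by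
        rw [if_neg (Finset.ne_of_mem_erase hi).symm]]
      rw [Finset.sum_const, Finset.card_erase_of_mem (Finset.mem_univ j), Finset.card_univ,
        Fintype.card_fin, Nat.add_sub_cancel, nsmul_eq_mul]
    rw [h2, add_comm]
  rw [hX1, hX2] at htr
  have hd : (dZ q lam : ℂ) ≠ 0 := by
    have := (hH N l q D hP).2 lam
    exact_mod_cast this.ne'
  have htyp := (hTYP N l q hP lam).2.2.2.2 k
  rw [← htyp]
  have h3 : c lam * (dZ q lam : ℂ) = (dZ q lam : ℂ) *
      ∑ j, (qz q (2 * (xl lam j - 1)) ^ k - qz q (2 * xl lam j) ^ k) := by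
    rw [← htr, Finset.sum_add_distrib, Finset.sum_sub_distrib, ← Finset.mul_sum]
    ring
  rw [mul_comm] at h3
  exact mul_left_cancel₀ hd h3

end Pool.Agent.Helper24.SQ
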