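import Pool.Agent.Helper4.SQ.GoalsL

/-!
# Project SQ (MP_bb32d1_al), packet SQL-MRY: the relations of the currents
-/

set_option autoImplicit false

namespace Pool.Agent.Helper24.SQ

open Pool.Agent.Helper19.SQ Pool.Agent.Helper4.SQ

noncomputable section

theorem ne_succ {l : ℕ} [NeZero l] (hl : 2 ≤ l) (c : ZMod l) : c ≠ c + 1 := by
  intro h
  have h1 : (1 : ZMod l) = 0 := by
    have : c + 0 = c + 1 := by rw [add_zero]; exact h
    exact (add_left_cancel this).symm
  haveI : Fact (1 < l) := ⟨by omega⟩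
  exact one_ne_zero h1

theorem pred_ne_succ {l : ℕ} [NeZero l] (hl : 3 ≤ l) (c : ZMod l) : c - 1 ≠ c + 1 := by
  intro h
  have h1 : ((2 : ℕ) : ZMod l) = 0 := by
    have : (c + 1) - (c - 1) = 0 := by rw [h, sub_self]
    have e : (c + 1) - (c - 1) = ((2 : ℕ) : ZMod l) := by push_cast; ring
    rw [← e, this]
  rw [ZMod.natCast_eq_zero_iff] at h1
  have := Nat.le_of_dvd (by norm_num) h1
  omega

theorem al_self {l : ℕ} [NeZero l] (hl : 2 ≤ l) (c : ZMod l) : al c c - al c (c + 1) = 2 := by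
  have h1 := ne_succ hl c
  unfold al
  rw [if_pos rfl, if_neg h1, if_neg h1.symm, if_pos rfl]
  norm_num

theorem al_sub {l : ℕ} [NeZero l] (c c' : ZMod l) :
    al c' c - al c' (c + 1) = 2 * (if c = c' then 1 else 0) - (if c' = c + 1 then 1 else 0) -
      (if c' = c - 1 then 1 else 0) := by
  unfold al
  have e1 : (c + 1 = c' + 1) ↔ (c = c') := add_left_inj 1
  have e2 : (c = c' + 1) ↔ (c' = c - 1) :=
    ⟨fun h => by rw [h, add_sub_cancel_right], fun h => by rw [h, sub_add_cancel]⟩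
  have e3 : (c + 1 = c') ↔ (c' = c + 1) := eq_comm
  simp only [e1, e2, e3]
  ring

theorem ac_self {l : ℕ} [NeZero l] (hl : 2 ≤ l) (c : ZMod l) : ac c c = 2 := by
  have h1 := ne_succ hl c
  have h2 : c ≠ c - 1 := fun h => h1 (by
    have : c - 1 + 1 = c := sub_add_cancel c 1
    rw [← h] at this
    exact this.symm)
  unfold ac
  rw [if_pos rfl, if_neg h1, if_neg h2]
  norm_num

theorem ac_adj {l : ℕ} [NeZero l] (hl : 3 ≤ l) (c c' : ZMod l) (h : c' = c + 1 ∨ c' = c - 1) :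
    ac c c' = -1 := by
  have h1 := ne_succ (by omega : 2 ≤ l) c
  have h2 : c ≠ c - 1 := fun h => h1 (by
    have : c - 1 + 1 = c := sub_add_cancel c 1
    rw [← h] at this
    exact this.symm)
  have h3 := pred_ne_succ hl c
  unfold ac
  rcases h with h | h
  · subst h
    rw [if_neg h1, if_pos rfl, if_neg h3.symm]
    norm_num
  · subst h
    rw [if_neg h2, if_neg h3, if_pos rfl]
    norm_num

section half

variable {l : ℕ} [NeZero l] {L : Type} [LieRing L] [LieAlgebra ℂ L]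

theorem wt_lie {h X Y : L} {a b : ℤ} (hX : ⁅h, X⁆ = ((a : ℤ) : ℂ) • X)
    (hY : ⁅h, Y⁆ = ((b : ℤ) : ℂ) • Y) : ⁅h, ⁅X, Y⁆⁆ = (((a + b : ℤ)) : ℂ) • ⁅X, Y⁆ := by
  rw [leibniz_lie, hX, hY, smul_lie, lie_smul, ← add_smul]
  push_cast
  rfl

theorem half (hl : 3 ≤ l) (ε : ℤ) (hε : ε * ε = 1) (h : ZMod l → L) (A K : ZMod l → ℕ → L)
    (B : ZMod l → L)
    (hw : ∀ z c r, ⁅h z, A c r⁆ = ((ε * al c z : ℤ) : ℂ) • A c r)
    (hBA : ∀ c c' r, ⁅B c, A c' r⁆ = if c = c' then K c r else 0)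
    (hK : ∀ c c' r s, ⁅K c r, A c' s⁆ = (-ac c c') • A c' (r + s))
    (up : ∀ (c : ZMod l) (β : ZMod l → ℤ) (X : L), (∀ z, ⁅h z, X⁆ = ((β z : ℤ) : ℂ) • X) →
      0 < ε * (β c - β (c + 1)) → ⁅B c, X⁆ = 0 → X = 0) :
    (∀ c r s, ⁅A c r, A c s⁆ = 0) ∧
    (∀ c c' r s, c' ≠ c → c' ≠ c + 1 → c' ≠ c - 1 → ⁅A c r, A c' s⁆ = 0) ∧
    (∀ c c' r s, (c' = c + 1 ∨ c' = c - 1) → ⁅A c r, A c' s⁆ = ⁅A c 0, A c' (r + s)⁆) ∧
    (∀ c c' r s t, (c' = c + 1 ∨ c' = c - 1) → ⁅A c r, ⁅A c s, A c' t⁆⁆ = 0) := by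
  have hl2 : 2 ≤ l := by omega
  have hB1 : ∀ c r, ⁅B c, A c r⁆ = K c r := fun c r => by rw [hBA, if_pos rfl]
  have hB0 : ∀ c c' r, c' ≠ c → ⁅B c, A c' r⁆ = 0 := fun c c' r hne => by
    rw [hBA, if_neg fun e => hne e.symm]
  have h2 : ∀ z c r c' s, ⁅h z, ⁅A c r, A c' s⁆⁆ =
      ((ε * al c z + ε * al c' z : ℤ) : ℂ) • ⁅A c r, A c' s⁆ := fun z c r c' s =>
    wt_lie (hw z c r) (hw z c' s)
  have hval : ∀ c c' : ZMod l, ε * ((ε * al c c + ε * al c' c) -
      (ε * al c (c + 1) + ε * al c' (c + 1))) = 2 + (al c' c - al c' (c + 1)) := by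
    intro c c'
    have e1 := al_self hl2 c
    calc ε * ((ε * al c c + ε * al c' c) - (ε * al c (c + 1) + ε * al c' (c + 1)))
        = (ε * ε) * ((al c c - al c (c + 1)) + (al c' c - al c' (c + 1))) := by ring
      _ = _ := by rw [hε, e1, one_mul]
  have hne1 : ∀ c : ZMod l, c ≠ c - 1 := fun c h => ne_succ hl2 c (by
    have : c - 1 + 1 = c := sub_add_cancel c 1
    rw [← h] at this
    exact this.symm)
  have hadj : ∀ c c' : ZMod l, (c' = c + 1 ∨ c' = c - 1) → c' ≠ c ∧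
      al c' c - al c' (c + 1) = -1 := by
    intro c c' hc
    rw [al_sub]
    have h3 := pred_ne_succ hl c
    rcases hc with hc | hc
    · subst hc
      refine ⟨(ne_succ hl2 c).symm, ?_⟩
      rw [if_neg (ne_succ hl2 c), if_pos rfl, if_neg h3.symm]
      norm_num
    · subst hc
      refine ⟨(hne1 c).symm, ?_⟩
      rw [if_neg (hne1 c), if_neg h3, if_pos rfl]
      norm_num
  have hBX : ∀ c r c' s, c' ≠ c → ⁅B c, ⁅A c r, A c' s⁆⁆ = (-ac c c') • A c' (r + s) := by
    intro c r c' s hne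
    rw [leibniz_lie, hB1, hB0 c c' s hne, lie_zero, add_zero, hK]
  have part5 : ∀ c c' r s, (c' = c + 1 ∨ c' = c - 1) →
      ⁅A c r, A c' s⁆ = ⁅A c 0, A c' (r + s)⁆ := by
    intro c c' r s hc
    obtain ⟨hne, hal⟩ := hadj c c' hc
    rw [← sub_eq_zero]
    refine up c (fun z => ε * al c z + ε * al c' z) _ (fun z => ?_) ?_ ?_
    · rw [lie_sub, h2, h2, ← smul_sub]
    · rw [hval, hal]; norm_num
    · rw [lie_sub, hBX c r c' s hne, hBX c 0 c' (r + s) hne, zero_add, sub_self]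
  refine ⟨fun c r s => ?_, fun c c' r s h1 h3 h4 => ?_, part5, fun c c' r s t hc => ?_⟩
  · refine up c (fun z => ε * al c z + ε * al c z) _ (fun z => h2 z c r c s) ?_ ?_
    · rw [hval, al_self hl2]; norm_num
    · rw [leibniz_lie, hB1, hB1, hK, ← lie_skew (A c r), hK, add_comm s r, add_neg_cancel]
  · refine up c (fun z => ε * al c z + ε * al c' z) _ (fun z => h2 z c r c' s) ?_ ?_
    · rw [hval, al_sub, if_neg fun e => h1 e.symm, if_neg h3, if_neg h4]; norm_num
    · rw [hBX c r c' s h1]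
      unfold ac
      rw [if_neg fun e => h1 e.symm, if_neg h3, if_neg h4]
      simp
  · obtain ⟨hne, hal⟩ := hadj c c' hc
    refine up c (fun z => ε * al c z + (ε * al c z + ε * al c' z)) _
      (fun z => wt_lie (hw z c r) (h2 z c s c' t)) ?_ ?_
    · have e1 := al_self hl2 c
      have e2 : ε * ((ε * al c c + (ε * al c c + ε * al c' c)) -
          (ε * al c (c + 1) + (ε * al c (c + 1) + ε * al c' (c + 1)))) =
          (ε * ε) * (2 * (al c c - al c (c + 1)) + (al c' c - al c' (c + 1))) := by ring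
      rw [e2, hε, e1, hal]; norm_num
    · rw [leibniz_lie, hB1, hBX c s c' t hne, leibniz_lie, hK, hK, ac_self hl2,
        ac_adj hl c c' hc, smul_lie, lie_smul, lie_smul, part5 c c' (r + s) t hc,
        part5 c c' s (r + t) hc, part5 c c' r (s + t) hc]
      have e3 : s + (r + t) = r + s + t := by ring
      have e4 : r + (s + t) = r + s + t := by ring
      rw [e3, e4, neg_neg, one_smul, neg_smul, two_smul]
      abel

end half

theorem sUPC (h0 : S_UP0) : S_UPC := by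
  intro l _ V _ _ T hl c β X hX
  have hne := ne_succ hl c
  have hEF : ⁅T.E c 0, T.F c 0⁆ = T.h c - T.h (c + 1) := by
    rw [T.EF, if_pos rfl, add_zero, T.H0]
  refine ⟨fun hβ hF => ?_, fun hβ hE => ?_⟩
  · refine h0 (ZMod l) V T.h T.types T.span c (c + 1) hne (T.E c 0) (T.F c 0)
      (fun z => T.hE z c 0) (fun z => ?_) hEF β X hX hβ hF
    rw [T.hF]
    congr 1
    unfold al
    push_cast
    ring
  · refine h0 (ZMod l) V T.h T.types T.span (c + 1) c hne.symm (T.F c 0) (T.E c 0)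
      (fun z => ?_) (fun z => T.hE z c 0) ?_ β X hX (by linarith) hE
    · rw [T.hF]
      congr 1
      unfold al
      push_cast
      ring
    · rw [← lie_skew, hEF, neg_sub]

theorem sMRY (hU : S_UPC) : S_MRY := by
  intro l _ V _ _ T hl
  letI : LieAlgebra ℂ (Module.End ℂ V) := LieAlgebra.ofAssociativeAlgebra
  have hl2 : 2 ≤ l := by omega
  constructor
  · refine half hl (-1) (by norm_num) T.h T.F T.H (fun c => T.E c 0) (fun z c r => ?_)
      (fun c c' r => ?_) T.HF (fun c β X hX hβ h0 => ?_)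
    · rw [T.hF]
      congr 1
      push_cast
      ring
    · rw [T.EF, zero_add]
    · exact (hU l V T hl2 c β X hX).2 (by linarith) h0
  · refine half hl 1 (by norm_num) T.h T.E (fun c r => -T.H c r) (fun c => T.F c 0)
      (fun z c r => ?_) (fun c c' r => ?_) (fun c c' r s => ?_) (fun c β X hX hβ h0 => ?_)
    · rw [T.hE]
      congr 1
      push_cast
      ring
    · rw [← lie_skew, T.EF, add_zero]
      by_cases hc : c = c'
      · subst hc
        rw [if_pos rfl, if_pos rfl]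
      · rw [if_neg hc, if_neg fun e => hc e.symm, neg_zero]
    · rw [neg_lie, T.HE, neg_smul]
    · exact (hU l V T hl2 c β X hX).1 (by linarith) h0

end

end Pool.Agent.Helper24.SQ
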